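import Mathlib
import Pool.Agent.Q105.TwBall
import Pool.Agent.Q105.CRmain
import Pool.Agent.Q105.ConjLimit

/-!
# The conjugacy ratio does not depend on the generating set

A finitely generated group with positive conjugacy ratio (for some finite generating set) is
virtually abelian. Hence the conjugacy ratio of a finitely generated group is the same for all
finite generating sets.
-/

namespace Pool.Agent.Results.MP_ae02e0_al.Independence

open Pool.Agent.Q105.TwBall Pool.Agent.Q105.CR Pool.Agent.Q105.CL Filter Topology

/-- The conjugacy ratio of `G` with respect to `X`: the limsup of the number of conjugacy classes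
meeting the ball of radius `n` over the size of that ball. -/
noncomputable def CR {G : Type*} [Group G] (X : Set G) : ℝ :=
  limsup (fun n : ℕ => (((ConjClasses.mk '' Ball X n : Set (ConjClasses G)).ncard : ℕ) : ℝ) /
    ((Ball X n).ncard : ℝ)) atTop

/-- A group is virtually abelian if it has an abelian subgroup of finite index. -/
def VirtAbelian (G : Type*) [Group G] : Prop :=
  ∃ A : Subgroup G, A.FiniteIndex ∧ ∀ x ∈ A, ∀ y ∈ A, x * y = y * x

lemma ratio_tendsto_zero {G : Type*} [Group G] (X : Set G) (hX : X.Finite)
    (hgen : Subgroup.closure X = ⊤) (h : ¬ VirtAbelian G) :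
    Tendsto (fun n : ℕ => ((conjBall X n).ncard : ℝ) / ((Ball X n).ncard : ℝ)) atTop (𝓝 0) := by
  rw [Metric.tendsto_nhds]
  intro ε hε
  by_contra hcon
  apply h
  obtain ⟨A, hA1, hA2⟩ := virtuallyAbelian_of_frequently hX hgen ε hε (by
    intro hev
    apply hcon
    filter_upwards [hev] with n hn
    push Not at hn
    have hb : (0 : ℝ) < ((Ball X n).ncard : ℝ) := by exact_mod_cast Ball_ncard_pos X hX n
    rw [Real.dist_eq, sub_zero, abs_of_nonneg (by positivity), div_lt_iff₀ hb]
    exact hn)
  exact ⟨A, ⟨hA1⟩, hA2⟩

/-- For every finitely generated group `G`: the ratios converge for every finite generating set,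
the limit (which is the conjugacy ratio) is the same for all finite generating sets, and it is
positive exactly when `G` is virtually abelian. -/
theorem result (G : Type*) [Group G] :
    (∀ X Y : Set G, X.Finite → Y.Finite → Subgroup.closure X = ⊤ → Subgroup.closure Y = ⊤ →
      CR X = CR Y) ∧
    (∀ X : Set G, X.Finite → Subgroup.closure X = ⊤ → (0 < CR X ↔ VirtAbelian G)) := by
  have key : ∃ L : ℝ, (0 < L ↔ VirtAbelian G) ∧ ∀ X : Set G, X.Finite →
      Subgroup.closure X = ⊤ → CR X = L := by
    by_cases h : VirtAbelian G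
    · obtain ⟨A, hA, hcomm⟩ := h
      obtain ⟨L, hL, hlim⟩ := exists_limit A hA.index_ne_zero hcomm
      exact ⟨L, ⟨fun _ => ⟨A, hA, hcomm⟩, fun _ => hL⟩, fun X hX hgen =>
        (hlim X hX hgen).limsup_eq⟩
    · exact ⟨0, ⟨fun h0 => absurd h0 (lt_irrefl _), fun h1 => absurd h1 h⟩, fun X hX hgen =>
        (ratio_tendsto_zero X hX hgen h).limsup_eq⟩
  obtain ⟨L, hL1, hL2⟩ := key
  refine ⟨fun X Y hX hY hgX hgY => ?_, fun X hX hgen => ?_⟩
  · rw [hL2 X hX hgX, hL2 Y hY hgY]
  · rw [hL2 X hX hgen]; exact hL1

end Pool.Agent.Results.MP_ae02e0_al.Independence
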